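import Pool.Agent.Lib.H67C.Prob

/-!
# The sequence of profiles, the law of the entries, and the test function
-/

set_option autoImplicit false

open Finset Polynomial Matrix MeasureTheory ProbabilityTheory Filter
open scoped ENNReal

namespace Pool.Agent.Lib.H67C

/-- the event that at least three quarters of the eigenvalues vanish, by divisibility -/
def Ev {Ω : Type} (n : ℕ) (U : Matrix (Fin n) (Fin n) ℝ) (Y : ℕ × ℕ → Ω → ℂ) : Set Ω :=
  {ω | ∃ m : ℕ, 3 * n ≤ 4 * m ∧ (X : ℂ[X]) ^ m ∣ (Matrix.of (fun i j : Fin n =>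
      ((U i j : ℝ) : ℂ) * Y (i.val, j.val) ω)).charpoly}

lemma pow_bound (k : ℕ) (hk : 4 ≤ k) : 2 * k ^ 2 ≤ 4 ^ (k - 1) := by
  induction k, hk using Nat.le_induction with
  | base => norm_num
  | succ n hn ih =>
    have h1 : n + 1 - 1 = (n - 1) + 1 := by omega
    have h2 : 4 ^ (n - 1 + 1) = 4 ^ (n - 1) * 4 := pow_succ _ _
    rw [h1, h2]
    nlinarith

lemma ennreal_bound (k : ℕ) (hk : 4 ≤ k) :
    (k : ℝ≥0∞) ^ 2 * (1 / 4) ^ (k - 1) ≤ 1 / 2 := by
  have h := pow_bound k hk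
  have h4 : (4 : ℝ≥0∞) ^ (k - 1) ≠ 0 := pow_ne_zero _ (by norm_num)
  have h4' : (4 : ℝ≥0∞) ^ (k - 1) ≠ ⊤ := ENNReal.pow_ne_top (by norm_num)
  rw [one_div, ← ENNReal.inv_pow, ← div_eq_mul_inv, ENNReal.div_le_iff h4 h4', one_div,
    ← ENNReal.div_eq_inv_mul, ENNReal.le_div_iff_mul_le (by norm_num) (by norm_num)]
  have h5 : ((2 * k ^ 2 : ℕ) : ℝ≥0∞) ≤ ((4 ^ (k - 1) : ℕ) : ℝ≥0∞) := by exact_mod_cast h
  push_cast at h5
  rw [mul_comm]
  exact h5

/-- existence of the profile of order `n` -/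
lemma exists_U (n : ℕ) : ∃ U : Matrix (Fin n) (Fin n) ℝ, (∀ i j, 0 ≤ U i j) ∧
    (∀ j, ∑ i, U i j ^ 2 = 1) ∧ (∀ j, ∑ i, U j i ^ 2 = 1) ∧
    (∀ i j, U i j ≤ (n : ℝ) ^ (-(1 / 12) : ℝ)) ∧
    ((∃ k, 4 ≤ k ∧ n = k ^ 5 + k ^ 4) → ∀ (Ω : Type) [MeasurableSpace Ω] (P : Measure Ω)
      [IsProbabilityMeasure P] (Y : ℕ × ℕ → Ω → ℂ), iIndepFun Y P →
      (∀ p, P {ω | Y p ω ≠ 0} ≤ 1 / 4) → 1 / 2 ≤ P (Ev n U Y)) := by
  by_cases h : ∃ k, 4 ≤ k ∧ n = k ^ 5 + k ^ 4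
  · obtain ⟨k, hk, rfl⟩ := h
    have hk0 : 0 < k := by omega
    have hcard : Fintype.card (T (k ^ 4) k k) = k ^ 5 + k ^ 4 := by
      simp only [Fintype.card_sum, Fintype.card_prod, Fintype.card_fin]
      ring
    let e : T (k ^ 4) k k ≃ Fin (k ^ 5 + k ^ 4) := Fintype.equivFinOfCardEq hcard
    have hM : 0 < k ^ 4 := by positivity
    refine ⟨prof (k ^ 4) k k _ e, fun i j => Real.sqrt_nonneg _, prof_col _ _ _ _ hM hk0 hk0 e,
      prof_row _ _ _ _ hM hk0 hk0 e, ?_, ?_⟩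
    · intro i j
      refine (prof_le _ _ _ _ e i j).trans ?_
      have hkr : (0 : ℝ) < k := by exact_mod_cast hk0
      have h1 : Real.sqrt (1 / k) = (k : ℝ) ^ (-(1 / 2) : ℝ) := by
        rw [Real.sqrt_eq_rpow, one_div, Real.inv_rpow hkr.le, Real.rpow_neg hkr.le]
      rw [h1]
      have h2 : ((k ^ 5 + k ^ 4 : ℕ) : ℝ) ≤ (k : ℝ) ^ (6 : ℝ) := by
        have : k ^ 5 + k ^ 4 ≤ k ^ 6 := by
          have e1 : k ^ 6 = k ^ 5 * k := by ring
          have e2 : k ^ 5 = k ^ 4 * k := by ring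
          have e3 : 1 * k ^ 4 ≤ k * k ^ 4 := Nat.mul_le_mul_right _ (by omega)
          have e4 : 4 * k ^ 5 ≤ k * k ^ 5 := Nat.mul_le_mul_right _ hk
          have e5 : k * k ^ 4 = k ^ 5 := by ring
          have e6 : k * k ^ 5 = k ^ 6 := by ring
          omega
        have h3 : ((k ^ 5 + k ^ 4 : ℕ) : ℝ) ≤ ((k ^ 6 : ℕ) : ℝ) := by exact_mod_cast this
        refine h3.trans (le_of_eq ?_)
        rw [show (6 : ℝ) = ((6 : ℕ) : ℝ) by norm_num, Real.rpow_natCast]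
        push_cast
        rfl
      have h3 : (0 : ℝ) < ((k ^ 5 + k ^ 4 : ℕ) : ℝ) := by exact_mod_cast (by positivity)
      calc (k : ℝ) ^ (-(1 / 2) : ℝ) = ((k : ℝ) ^ (6 : ℝ)) ^ (-(1 / 12) : ℝ) := by
            rw [← Real.rpow_mul hkr.le]
            norm_num
        _ ≤ ((k ^ 5 + k ^ 4 : ℕ) : ℝ) ^ (-(1 / 12) : ℝ) :=
            Real.rpow_le_rpow_of_nonpos h3 h2 (by norm_num)
    · intro _ Ω _ P _ Y hI h0
      have h1 := prof_prob P Y hI h0 (k ^ 4) k k _ hk0 e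
      have h2 := ennreal_bound k hk
      have h3 : P {ω | (X : ℂ[X]) ^ (k ^ 4 * k) ∣ (Matrix.of (fun i j : Fin (k ^ 5 + k ^ 4) =>
          ((prof (k ^ 4) k k _ e i j : ℝ) : ℂ) * Y (i.val, j.val) ω)).charpoly} ≤
          P (Ev _ (prof (k ^ 4) k k _ e) Y) := by
        apply measure_mono
        intro ω hω
        refine ⟨k ^ 4 * k, ?_, hω⟩
        have : k ^ 4 * 4 ≤ k ^ 4 * k := Nat.mul_le_mul_left _ hk
        have e2 : k ^ 5 = k ^ 4 * k := by ring
        omega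
      have h4 : (1 : ℝ≥0∞) ≤ P (Ev _ (prof (k ^ 4) k k _ e) Y) + 1 / 2 :=
        h1.trans (add_le_add h3 h2)
      have h5 : (1 : ℝ≥0∞) / 2 + 1 / 2 ≤ P (Ev _ (prof (k ^ 4) k k _ e) Y) + 1 / 2 := by
        rw [ENNReal.add_halves]
        exact h4
      have h6 : (1 / 2 : ℝ≥0∞) ≠ ⊤ := ENNReal.div_ne_top (by norm_num) (by norm_num)
      exact (ENNReal.add_le_add_iff_right h6).1 h5
  · refine ⟨fun _ _ => Real.sqrt (1 / n), fun i j => Real.sqrt_nonneg _, ?_, ?_, ?_,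
      fun h' => absurd h' h⟩
    · intro j
      have hn : (0 : ℝ) < n := by exact_mod_cast j.pos
      rw [Finset.sum_const, Finset.card_univ, Fintype.card_fin, nsmul_eq_mul,
        Real.sq_sqrt (by positivity)]
      field_simp
    · intro j
      have hn : (0 : ℝ) < n := by exact_mod_cast j.pos
      rw [Finset.sum_const, Finset.card_univ, Fintype.card_fin, nsmul_eq_mul,
        Real.sq_sqrt (by positivity)]
      field_simp
    · intro i j
      have hn : (1 : ℝ) ≤ n := by exact_mod_cast i.pos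
      have hn0 : (0 : ℝ) < n := by linarith
      have h1 : Real.sqrt (1 / n) = (n : ℝ) ^ (-(1 / 2) : ℝ) := by
        rw [Real.sqrt_eq_rpow, one_div, Real.inv_rpow hn0.le, Real.rpow_neg hn0.le]
      rw [h1]
      exact Real.rpow_le_rpow_of_exponent_le hn (by norm_num)

/-- the law of the entries: `0` with probability `3/4`, `2` and `-2` with probability `1/8` -/
noncomputable def law : Measure ℂ :=
  (3 / 4 : ℝ≥0∞) • Measure.dirac 0 + ((1 / 8 : ℝ≥0∞) • Measure.dirac 2 +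
    (1 / 8 : ℝ≥0∞) • Measure.dirac (-2))

lemma law_total : (3 / 4 : ℝ≥0∞) + (1 / 8 + 1 / 8) = 1 := by
  have h1 : (3 / 4 : ℝ≥0∞) = ENNReal.ofReal (3 / 4) := by
    rw [ENNReal.ofReal_div_of_pos (by norm_num)]; norm_num
  have h2 : (1 / 8 : ℝ≥0∞) = ENNReal.ofReal (1 / 8) := by
    rw [ENNReal.ofReal_div_of_pos (by norm_num)]; norm_num
  rw [h1, h2, ← ENNReal.ofReal_add (by norm_num) (by norm_num),
    ← ENNReal.ofReal_add (by norm_num) (by norm_num)]
  norm_num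

instance : IsProbabilityMeasure law := ⟨by
  unfold law
  simp only [Measure.coe_add, Measure.coe_smul, Pi.add_apply, Pi.smul_apply, measure_univ,
    smul_eq_mul, mul_one]
  exact law_total⟩

lemma law_ne : law {x | x ≠ 0} = 1 / 4 := by
  have hm : MeasurableSet {x : ℂ | x ≠ 0} := (measurableSet_singleton (0 : ℂ)).compl
  unfold law
  simp only [Measure.coe_add, Measure.coe_smul, Pi.add_apply, Pi.smul_apply,
    Measure.dirac_apply' _ hm, smul_eq_mul]
  simp only [Set.indicator, Set.mem_ofPred_eq, ne_eq, not_true_eq_false, if_false, mul_zero,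
    zero_add]
  rw [if_pos (by norm_num), if_pos (by norm_num)]
  have h2 : (1 / 8 : ℝ≥0∞) = ENNReal.ofReal (1 / 8) := by
    rw [ENNReal.ofReal_div_of_pos (by norm_num)]; norm_num
  have h3 : (1 / 4 : ℝ≥0∞) = ENNReal.ofReal (1 / 4) := by
    rw [ENNReal.ofReal_div_of_pos (by norm_num)]; norm_num
  simp only [Pi.one_apply, mul_one]
  rw [h2, h3, ← ENNReal.ofReal_add (by norm_num) (by norm_num)]
  norm_num

lemma law_integral {E : Type*} [NormedAddCommGroup E] [NormedSpace ℝ E] [CompleteSpace E]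
    (g : ℂ → E) :
    ∫ x, g x ∂law = (3 / 4 : ℝ) • g 0 + ((1 / 8 : ℝ) • g 2 + (1 / 8 : ℝ) • g (-2)) := by
  unfold law
  have hi : ∀ a : ℂ, ∀ c : ℝ≥0∞, c ≠ ⊤ → Integrable g (c • Measure.dirac a) := fun a c hc =>
    (integrable_dirac (by simp)).smul_measure hc
  have h34 : (3 / 4 : ℝ≥0∞) ≠ ⊤ := ENNReal.div_ne_top (by norm_num) (by norm_num)
  have h18 : (1 / 8 : ℝ≥0∞) ≠ ⊤ := ENNReal.div_ne_top (by norm_num) (by norm_num)
  rw [integral_add_measure (hi _ _ h34) ((hi _ _ h18).add_measure (hi _ _ h18)),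
    integral_add_measure (hi _ _ h18) (hi _ _ h18),
    integral_smul_measure, integral_smul_measure, integral_smul_measure, integral_dirac,
    integral_dirac, integral_dirac]
  simp

lemma law_mean : ∫ x, x ∂law = 0 := by
  rw [law_integral]
  simp

lemma law_var : ∫ x : ℂ, ‖x‖ ^ 2 ∂law = 1 := by
  rw [law_integral]
  simp
  norm_num

lemma law_memLp : MemLp (fun x : ℂ => x) 2 law := by
  refine MemLp.of_bound (by fun_prop) 2 ?_
  have hm : MeasurableSet {x : ℂ | ‖x‖ ≤ 2} := measurableSet_le (by fun_prop) (by fun_prop)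
  rw [ae_iff]
  have : {a : ℂ | ¬ ‖a‖ ≤ 2} = {x : ℂ | ‖x‖ ≤ 2}ᶜ := rfl
  rw [this]
  unfold law
  simp only [Measure.coe_add, Measure.coe_smul, Pi.add_apply, Pi.smul_apply,
    Measure.dirac_apply' _ hm.compl, smul_eq_mul]
  simp

end Pool.Agent.Lib.H67C
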