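import Pool.Agent.Lib.H67C.Prob

/-!
# The digraph with a filler block, for all orders
-/

set_option autoImplicit false

open Finset Polynomial Matrix MeasureTheory ProbabilityTheory
open scoped ENNReal

namespace Pool.Agent.Lib.H67C

/-- the vertices, with a filler block of size `s` -/
abbrev T' (M q k s : ℕ) : Type := T M q k ⊕ Fin s

/-- the variance profile -/
noncomputable def V' (M q k s : ℕ) : T' M q k s → T' M q k s → ℝ
  | Sum.inl a, Sum.inl b => W M q k a b / k
  | Sum.inr _, Sum.inr _ => 1 / s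
  | Sum.inl _, Sum.inr _ => 0
  | Sum.inr _, Sum.inl _ => 0

lemma V'_nonneg (M q k s : ℕ) (a b : T' M q k s) : 0 ≤ V' M q k s a b := by
  rcases a with a | x <;> rcases b with b | y <;> simp only [V']
  · exact div_nonneg (W_nonneg _ _ _ _ _) (Nat.cast_nonneg _)
  · exact le_rfl
  · exact le_rfl
  · positivity

lemma V'_le (M q k s : ℕ) (hk : 0 < k) (hs : k ≤ s) (a b : T' M q k s) :
    V' M q k s a b ≤ 1 / k := by
  have hk' : (0 : ℝ) < k := by exact_mod_cast hk
  rcases a with a | x <;> rcases b with b | y <;> simp only [V']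
  · exact div_le_div_of_nonneg_right (W_le_one _ _ _ _ _) (Nat.cast_nonneg _)
  · positivity
  · positivity
  · exact one_div_le_one_div_of_le hk' (by exact_mod_cast hs)

lemma V'_row (M q k s : ℕ) (hM : 0 < M) (hq : 0 < q) (hk : 0 < k) (a : T' M q k s) :
    ∑ b, V' M q k s a b = 1 := by
  have hk' : (k : ℝ) ≠ 0 := by positivity
  rcases a with a | x
  · rw [Fintype.sum_sum_type]
    simp only [V', Finset.sum_const_zero, add_zero]
    rw [← Finset.sum_div, row_sum M q k hM hq, div_self hk']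
  · have hs : (s : ℝ) ≠ 0 := by
      have := x.pos
      positivity
    rw [Fintype.sum_sum_type]
    simp only [V', Finset.sum_const_zero, zero_add, Finset.sum_const, Finset.card_univ,
      Fintype.card_fin, nsmul_eq_mul]
    exact mul_one_div_cancel hs

lemma V'_col (M q k s : ℕ) (hM : 0 < M) (hq : 0 < q) (hk : 0 < k) (b : T' M q k s) :
    ∑ a, V' M q k s a b = 1 := by
  have hk' : (k : ℝ) ≠ 0 := by positivity
  rcases b with b | y
  · rw [Fintype.sum_sum_type]
    simp only [V', Finset.sum_const_zero, add_zero]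
    rw [← Finset.sum_div, col_sum M q k hM hq, div_self hk']
  · have hs : (s : ℝ) ≠ 0 := by
      have := y.pos
      positivity
    rw [Fintype.sum_sum_type]
    simp only [V', Finset.sum_const_zero, zero_add, Finset.sum_const, Finset.card_univ,
      Fintype.card_fin, nsmul_eq_mul]
    exact mul_one_div_cancel hs

/-- levels, with the filler block at level `0` -/
def lev' (M q k s : ℕ) (τ : Fin k × Fin k → ℕ) : T' M q k s → ℕ
  | Sum.inl a => lev M q k τ a + 1
  | Sum.inr _ => 0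

/-- the main deterministic fact, with the filler block -/
lemma X_pow_dvd' (M q k s : ℕ)
    (A : Matrix (T' M q k s) (T' M q k s) ℂ) (hA : ∀ a b, V' M q k s a b = 0 → A a b = 0)
    (hd : ∀ (β : Fin k × Fin k), ∃ r : ℕ, r + 1 < q ∧ ∀ (t t' : Fin q) (x y : Fin k), t.val = r →
      t'.val = r + 1 → x.val = 0 → y.val = 0 →
        A (Sum.inl (Sum.inr (β, t, x))) (Sum.inl (Sum.inr (β, t', y))) = 0) :
    (X : ℂ[X]) ^ (M * k) ∣ A.charpoly := by
  choose τ hτ hτd using hd
  let B : Matrix (T M q k) (T M q k) ℂ := fun a b => A (Sum.inl a) (Sum.inl b)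
  have hB : ∀ a b, W M q k a b = 0 → B a b = 0 := fun a b h => hA _ _ (by simp [V', h])
  have htri := lev_tri M q k τ hτ B hB (fun β t t' x y h1 h2 h3 h4 => hτd β t t' x y h1 h2 h3 h4)
  have hcard : ((Finset.univ : Finset (Fin M × Fin k)).map
      ((Function.Embedding.inl : _ ↪ T M q k).trans
        (Function.Embedding.inl : _ ↪ T' M q k s))).card = M * k := by
    rw [Finset.card_map, Finset.card_univ, Fintype.card_prod, Fintype.card_fin, Fintype.card_fin]
  rw [← hcard]
  refine X_pow_dvd_charpoly A (lev' M q k s τ) ?_ _ ?_ ?_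
  · intro a b h
    rcases a with a | x <;> rcases b with b | y
    · simp only [lev'] at h
      exact htri a b (by omega)
    · exact hA _ _ (by simp [V'])
    · simp only [lev'] at h
      omega
    · simp only [lev'] at h
      omega
  · intro p hp v hv
    rw [Finset.mem_map] at hp
    obtain ⟨⟨c, i⟩, -, rfl⟩ := hp
    have h1 := lt_mul c i
    rcases v with (⟨d, j⟩ | ⟨β', t', y⟩) | w
    · simp only [lev', lev, Function.Embedding.trans_apply, Function.Embedding.inl_apply] at hv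
      obtain ⟨h2, h3⟩ := div_unique' c d i j (by omega)
      rw [h2, h3]
      rfl
    · simp only [lev', lev, Function.Embedding.trans_apply, Function.Embedding.inl_apply] at hv
      have h2 := t'.isLt
      split_ifs at hv <;> omega
    · simp only [lev', lev, Function.Embedding.trans_apply, Function.Embedding.inl_apply] at hv
      omega
  · intro p hp
    rw [Finset.mem_map] at hp
    obtain ⟨⟨c, i⟩, -, rfl⟩ := hp
    apply hA
    simp [V', W, I]

/-- a single chain of distinct places is alive with small probability -/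
lemma chain_alive' {Ω : Type} [MeasurableSpace Ω] (P : Measure Ω) [IsProbabilityMeasure P]
    (X : ℕ × ℕ → Ω → ℂ) (hI : iIndepFun X P) (ρ : ℝ≥0∞)
    (h0 : ∀ p, P {ω | X p ω ≠ 0} ≤ ρ) (r : ℕ) (g : Fin r → ℕ × ℕ)
    (hg : Function.Injective g) :
    P {ω | ∀ s, X (g s) ω ≠ 0} ≤ ρ ^ r := by
  have h1 := (hI.precomp hg).measure_inter_preimage_eq_mul Finset.univ
    (sets := fun _ => ({0}ᶜ : Set ℂ)) (fun i _ => (measurableSet_singleton _).compl)
  have h2 : {ω | ∀ s, X (g s) ω ≠ 0} = ⋂ i ∈ (Finset.univ : Finset (Fin r)),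
      X (g i) ⁻¹' ({0}ᶜ : Set ℂ) := by
    ext ω
    simp
  rw [h2, h1]
  calc ∏ i : Fin r, P (X (g i) ⁻¹' ({0}ᶜ : Set ℂ)) ≤ ∏ _i : Fin r, ρ :=
        Finset.prod_le_prod' fun i _ => h0 (g i)
    _ = ρ ^ r := by simp

/-- the profile -/
noncomputable def prof' (M q k s n : ℕ) (e : T' M q k s ≃ Fin n) : Matrix (Fin n) (Fin n) ℝ :=
  fun i j => Real.sqrt (V' M q k s (e.symm i) (e.symm j))

lemma prof'_sq (M q k s n : ℕ) (e : T' M q k s ≃ Fin n) (i j : Fin n) :
    prof' M q k s n e i j ^ 2 = V' M q k s (e.symm i) (e.symm j) := by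
  unfold prof'
  exact Real.sq_sqrt (V'_nonneg _ _ _ _ _ _)

lemma prof'_row (M q k s n : ℕ) (hM : 0 < M) (hq : 0 < q) (hk : 0 < k) (e : T' M q k s ≃ Fin n)
    (i : Fin n) : ∑ j, prof' M q k s n e i j ^ 2 = 1 := by
  simp only [prof'_sq]
  rw [Equiv.sum_comp e.symm (fun b => V' M q k s (e.symm i) b), V'_row M q k s hM hq hk]

lemma prof'_col (M q k s n : ℕ) (hM : 0 < M) (hq : 0 < q) (hk : 0 < k) (e : T' M q k s ≃ Fin n)
    (j : Fin n) : ∑ i, prof' M q k s n e i j ^ 2 = 1 := by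
  simp only [prof'_sq]
  rw [Equiv.sum_comp e.symm (fun a => V' M q k s a (e.symm j)), V'_col M q k s hM hq hk]

lemma prof'_le (M q k s n : ℕ) (hk : 0 < k) (hs : k ≤ s) (e : T' M q k s ≃ Fin n) (i j : Fin n) :
    prof' M q k s n e i j ≤ Real.sqrt (1 / k) := by
  unfold prof'
  exact Real.sqrt_le_sqrt (V'_le _ _ _ _ hk hs _ _)

/-- the deterministic fact, transported to `Fin n` -/
lemma prof'_dvd (M q k s n : ℕ) (hk : 0 < k) (e : T' M q k s ≃ Fin n) (x : ℕ × ℕ → ℂ)
    (hx : ∀ β : Fin k × Fin k, ∃ r : Fin (q - 1),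
      x ((e (Sum.inl (Sum.inr (β, ⟨r.val, by omega⟩, ⟨0, hk⟩)))).val,
        (e (Sum.inl (Sum.inr (β, ⟨r.val + 1, by omega⟩, ⟨0, hk⟩)))).val) = 0) :
    (X : ℂ[X]) ^ (M * k) ∣
      (Matrix.of (fun i j : Fin n =>
        ((prof' M q k s n e i j : ℝ) : ℂ) * x (i.val, j.val))).charpoly := by
  set B : Matrix (Fin n) (Fin n) ℂ :=
    Matrix.of (fun i j : Fin n => ((prof' M q k s n e i j : ℝ) : ℂ) * x (i.val, j.val)) with hB
  have h1 := Matrix.charpoly_reindex e.symm B
  rw [← h1]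
  apply X_pow_dvd'
  · intro a b hab
    rw [Matrix.reindex_apply, Matrix.submatrix_apply, hB, Matrix.of_apply]
    simp [prof', hab]
  · intro β
    obtain ⟨r, hr⟩ := hx β
    have hs1 : r.val < q := by have := r.isLt; omega
    have hs2 : r.val + 1 < q := by have := r.isLt; omega
    refine ⟨r.val, hs2, ?_⟩
    intro t t' y y' ht ht' hy hy'
    rw [Matrix.reindex_apply, Matrix.submatrix_apply, hB, Matrix.of_apply]
    have e1 : t = ⟨r.val, hs1⟩ := Fin.ext ht
    have e2 : t' = ⟨r.val + 1, hs2⟩ := Fin.ext ht'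
    have e3 : y = ⟨0, hk⟩ := Fin.ext hy
    have e4 : y' = ⟨0, hk⟩ := Fin.ext hy'
    subst e1
    subst e2
    subst e3
    subst e4
    simp only [Equiv.symm_symm]
    rw [hr, mul_zero]

/-- the probability estimate -/
lemma prof'_prob {Ω : Type} [MeasurableSpace Ω] (P : Measure Ω) [IsProbabilityMeasure P]
    (Y : ℕ × ℕ → Ω → ℂ) (hI : iIndepFun Y P) (ρ : ℝ≥0∞)
    (h0 : ∀ p, P {ω | Y p ω ≠ 0} ≤ ρ)
    (M q k s n : ℕ) (hk : 0 < k) (e : T' M q k s ≃ Fin n) :
    P {ω | ¬ ((X : ℂ[X]) ^ (M * k) ∣ (Matrix.of (fun i j : Fin n =>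
      ((prof' M q k s n e i j : ℝ) : ℂ) * Y (i.val, j.val) ω)).charpoly)} ≤
      (k : ℝ≥0∞) ^ 2 * ρ ^ (q - 1) := by
  let g : Fin k × Fin k → Fin (q - 1) → ℕ × ℕ := fun β r =>
    ((e (Sum.inl (Sum.inr (β, ⟨r.val, by omega⟩, ⟨0, hk⟩)))).val,
        (e (Sum.inl (Sum.inr (β, ⟨r.val + 1, by omega⟩, ⟨0, hk⟩)))).val)
  have hg : ∀ β, Function.Injective (g β) := by
    intro β s s' h
    have h1 := congrArg Prod.fst h
    have h2 := e.injective (Fin.ext h1)
    have h3 := Sum.inr_injective (Sum.inl_injective h2)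
    simp only [Prod.mk.injEq, Fin.mk.injEq, true_and, and_true] at h3
    exact Fin.ext h3
  have hcov : {ω | ¬ ((X : ℂ[X]) ^ (M * k) ∣ (Matrix.of (fun i j : Fin n =>
      ((prof' M q k s n e i j : ℝ) : ℂ) * Y (i.val, j.val) ω)).charpoly)} ⊆
        ⋃ β : Fin k × Fin k, {ω | ∀ r, Y (g β r) ω ≠ 0} := by
    intro ω hω
    by_contra h
    rw [Set.mem_iUnion] at h
    push Not at h
    refine hω (prof'_dvd M q k s n hk e (fun p => Y p ω) fun β => ?_)
    have := h β
    rw [Set.mem_ofPred_eq] at this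
    push Not at this
    exact this
  calc P _ ≤ P (⋃ β : Fin k × Fin k, {ω | ∀ r, Y (g β r) ω ≠ 0}) := measure_mono hcov
    _ ≤ ∑ β : Fin k × Fin k, P {ω | ∀ r, Y (g β r) ω ≠ 0} := measure_iUnion_fintype_le P _
    _ ≤ ∑ _β : Fin k × Fin k, ρ ^ (q - 1) := by
        gcongr with β _
        exact chain_alive' P Y hI ρ h0 (q - 1) (g β) (hg β)
    _ = (k : ℝ≥0∞) ^ 2 * ρ ^ (q - 1) := by
        rw [Finset.sum_const, Finset.card_univ, Fintype.card_prod, Fintype.card_fin, nsmul_eq_mul,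
          Nat.cast_mul, sq]

end Pool.Agent.Lib.H67C
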