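import Pool.Agent.Lib.H67C.Gen

/-!
# Profiles of all orders for which the eigenvalue distribution tends to the Dirac mass at zero
-/

set_option autoImplicit false

open Finset Polynomial Matrix MeasureTheory ProbabilityTheory Filter
open scoped ENNReal

namespace Pool.Agent.Lib.H67C

/-- the event that all but `E` eigenvalues vanish, by divisibility -/
def Ev' {Ω : Type} (n E : ℕ) (U : Matrix (Fin n) (Fin n) ℝ) (Y : ℕ × ℕ → Ω → ℂ) : Set Ω :=
  {ω | ∃ m : ℕ, n ≤ m + E ∧ (X : ℂ[X]) ^ m ∣ (Matrix.of (fun i j : Fin n =>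
      ((U i j : ℝ) : ℂ) * Y (i.val, j.val) ω)).charpoly}

/-- existence of the profile of order `n`, with parameters `k`, `q` -/
lemma exists_U' (n k q : ℕ) : ∃ U : Matrix (Fin n) (Fin n) ℝ, (∀ i j, 0 ≤ U i j) ∧
    (∀ j, ∑ i, U i j ^ 2 = 1) ∧ (∀ j, ∑ i, U j i ^ 2 = 1) ∧
    ((0 < k ∧ 0 < q ∧ q * k ^ 3 + 2 * k ≤ n) → (∀ i j, U i j ≤ Real.sqrt (1 / k)) ∧
      ∀ (Ω : Type) [MeasurableSpace Ω] (P : Measure Ω)
      [IsProbabilityMeasure P] (Y : ℕ × ℕ → Ω → ℂ), iIndepFun Y P → ∀ ρ : ℝ≥0∞,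
      (∀ p, P {ω | Y p ω ≠ 0} ≤ ρ) →
        P (Ev' n (q * k ^ 3 + 2 * k) U Y)ᶜ ≤ (k : ℝ≥0∞) ^ 2 * ρ ^ (q - 1)) := by
  by_cases h : 0 < k ∧ 0 < q ∧ q * k ^ 3 + 2 * k ≤ n
  · obtain ⟨hk, hq, hn⟩ := h
    obtain ⟨R, hR⟩ : ∃ R, n = q * k ^ 3 + R := ⟨n - q * k ^ 3, by omega⟩
    have hR2 : 2 * k ≤ R := by omega
    have hdiv := Nat.div_add_mod R k
    have hmod := Nat.mod_lt R hk
    have hdiv2 : 2 ≤ R / k := (Nat.le_div_iff_mul_le hk).2 (by linarith)
    obtain ⟨M, hM⟩ : ∃ M, R / k = M + 1 := ⟨R / k - 1, by omega⟩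
    have hM0 : 0 < M := by omega
    rw [hM] at hdiv
    have hexp : k * (M + 1) = M * k + k := by ring
    obtain ⟨s, hs⟩ : ∃ s, R = M * k + s := ⟨R - M * k, by omega⟩
    have hks : k ≤ s := by omega
    have hs2 : s ≤ 2 * k := by omega
    have hcard : Fintype.card (T' M q k s) = n := by
      simp only [Fintype.card_sum, Fintype.card_prod, Fintype.card_fin]
      rw [hR, hs]
      ring
    let e : T' M q k s ≃ Fin n := Fintype.equivFinOfCardEq hcard
    refine ⟨prof' M q k s n e, fun i j => Real.sqrt_nonneg _, prof'_col _ _ _ _ _ hM0 hq hk e,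
      prof'_row _ _ _ _ _ hM0 hq hk e, fun _ => ⟨prof'_le _ _ _ _ _ hk hks e, ?_⟩⟩
    intro Ω _ P _ Y hI ρ h0
    refine (measure_mono ?_).trans (prof'_prob P Y hI ρ h0 M q k s n hk e)
    intro ω hω hd
    exact hω ⟨M * k, by omega, hd⟩
  · refine ⟨fun _ _ => Real.sqrt (1 / n), fun i j => Real.sqrt_nonneg _, ?_, ?_,
      fun h' => absurd h' h⟩
    · intro j
      have hn : (0 : ℝ) < n := by exact_mod_cast j.pos
      rw [Finset.sum_const, Finset.card_univ, Fintype.card_fin, nsmul_eq_mul,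
        Real.sq_sqrt (by positivity)]
      field_simp
    · intro j
      have hn : (0 : ℝ) < n := by exact_mod_cast j.pos
      rw [Finset.sum_const, Finset.card_univ, Fintype.card_fin, nsmul_eq_mul,
        Real.sq_sqrt (by positivity)]
      field_simp

/-- the linear statistic on the event -/
lemma stat_bound (f : BoundedContinuousFunction ℂ ℝ) (p : ℂ[X]) (hp : p ≠ 0) (n m E : ℕ)
    (hn : 0 < n) (hdeg : p.natDegree = n) (hm : n ≤ m + E) (h : (X : ℂ[X]) ^ m ∣ p) :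
    |(p.roots.map (fun z => f z)).sum / (n : ℝ) - f 0| ≤ 2 * ‖f‖ * (E / n) := by
  obtain ⟨r, rfl⟩ := h
  have hr : r ≠ 0 := right_ne_zero_of_mul hp
  have hX : (X : ℂ[X]) ^ m ≠ 0 := left_ne_zero_of_mul hp
  have hn' : (0 : ℝ) < n := by exact_mod_cast hn
  rw [Polynomial.roots_mul hp, Polynomial.roots_X_pow, Multiset.map_add, Multiset.sum_add,
    Multiset.map_nsmul, Multiset.sum_nsmul]
  simp only [Multiset.map_singleton, Multiset.sum_singleton, nsmul_eq_mul]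
  have hdr : m + r.natDegree = n := by
    rw [← hdeg, Polynomial.natDegree_mul hX hr, Polynomial.natDegree_X_pow]
  have hcard : r.roots.card ≤ n - m := (Polynomial.card_roots' r).trans (by omega)
  have hb : |(r.roots.map (fun z => f z)).sum| ≤ ‖f‖ * (n - m : ℕ) := by
    calc |(r.roots.map (fun z => f z)).sum| ≤ ((r.roots.map (fun z => f z)).map (fun x => |x|)).sum :=
          Multiset.abs_sum_le_sum_abs
      _ ≤ (r.roots.map (fun _ => ‖f‖)).sum := by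
          rw [Multiset.map_map]
          exact Multiset.sum_map_le_sum_map _ _ (fun z _ => f.norm_coe_le_norm z)
      _ = ‖f‖ * r.roots.card := by
          rw [Multiset.map_const', Multiset.sum_replicate, nsmul_eq_mul, mul_comm]
      _ ≤ ‖f‖ * (n - m : ℕ) :=
          mul_le_mul_of_nonneg_left (by exact_mod_cast hcard) (norm_nonneg _)
  have hmn : m ≤ n := by omega
  have hE : ((n - m : ℕ) : ℝ) ≤ E := by exact_mod_cast (by omega : n - m ≤ E)
  have hcast : ((n - m : ℕ) : ℝ) = n - m := by push_cast [Nat.cast_sub hmn]; ring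
  have h0 : |f 0| ≤ ‖f‖ := f.norm_coe_le_norm 0
  have heq : ((m : ℝ) * f 0 + (r.roots.map (fun z => f z)).sum) / n - f 0 =
      ((r.roots.map (fun z => f z)).sum - (n - m : ℕ) * f 0) / n := by
    rw [hcast]
    field_simp
    ring
  rw [heq, abs_div, abs_of_pos hn', div_le_iff₀ hn']
  have h2 : |(n - m : ℕ) * f 0| ≤ (n - m : ℕ) * ‖f‖ := by
    rw [abs_mul, Nat.abs_cast]
    exact mul_le_mul_of_nonneg_left h0 (Nat.cast_nonneg _)
  calc |(r.roots.map (fun z => f z)).sum - (n - m : ℕ) * f 0| ≤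
        |(r.roots.map (fun z => f z)).sum| + |(n - m : ℕ) * f 0| := abs_sub _ _
    _ ≤ ‖f‖ * (n - m : ℕ) + (n - m : ℕ) * ‖f‖ := add_le_add hb h2
    _ = 2 * ‖f‖ * (n - m : ℕ) := by ring
    _ ≤ 2 * ‖f‖ * E := mul_le_mul_of_nonneg_left hE (by positivity)
    _ = 2 * ‖f‖ * (E / n) * n := by field_simp

/-- the number of vertices of the path layers -/
noncomputable def K (a : ℝ) (n : ℕ) : ℕ := ⌊(n : ℝ) ^ a⌋₊

/-- the number of clusters of a chain -/
noncomputable def Q (b : ℝ) (n : ℕ) : ℕ := ⌊(n : ℝ) ^ b⌋₊ + 1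

lemma K_le (a : ℝ) (n : ℕ) : (K a n : ℝ) ≤ (n : ℝ) ^ a :=
  Nat.floor_le (Real.rpow_nonneg (Nat.cast_nonneg _) _)

lemma tendsto_pow (a : ℝ) (ha : 0 < a) : Tendsto (fun n : ℕ => (n : ℝ) ^ a) atTop atTop :=
  (tendsto_rpow_atTop ha).comp tendsto_natCast_atTop_atTop

lemma K_ge (a : ℝ) (ha : 0 < a) : ∀ᶠ n : ℕ in atTop, (n : ℝ) ^ a / 2 ≤ K a n ∧ 0 < K a n := by
  filter_upwards [(tendsto_pow a ha).eventually_ge_atTop 2] with n hn
  have h1 : (n : ℝ) ^ a < K a n + 1 := Nat.lt_floor_add_one _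
  refine ⟨by linarith, ?_⟩
  have : (0 : ℝ) < K a n := by linarith
  exact_mod_cast this

lemma Q_le (b : ℝ) (hb : 0 < b) : ∀ᶠ n : ℕ in atTop, (Q b n : ℝ) ≤ 2 * (n : ℝ) ^ b := by
  filter_upwards [(tendsto_pow b hb).eventually_ge_atTop 1] with n hn
  have h1 : (⌊(n : ℝ) ^ b⌋₊ : ℝ) ≤ (n : ℝ) ^ b :=
    Nat.floor_le (Real.rpow_nonneg (Nat.cast_nonneg _) _)
  unfold Q
  push_cast
  linarith

lemma size_tendsto (a b : ℝ) (ha : 0 < a) (hb : 0 < b) (hab : 3 * a + b < 1) :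
    Tendsto (fun n : ℕ => ((Q b n * K a n ^ 3 + 2 * K a n : ℕ) : ℝ) / n) atTop (nhds 0) := by
  have h1 : Tendsto (fun n : ℕ => 4 * (n : ℝ) ^ (-(1 - (3 * a + b)))) atTop (nhds 0) := by
    have := ((tendsto_rpow_neg_atTop (y := 1 - (3 * a + b)) (by linarith)).comp
      tendsto_natCast_atTop_atTop).const_mul 4
    simpa using this
  refine squeeze_zero' (Eventually.of_forall fun n => by positivity) ?_ h1
  filter_upwards [Q_le b hb, eventually_gt_atTop 0] with n hQ hn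
  have hn' : (0 : ℝ) < n := by exact_mod_cast hn
  have hn1 : (1 : ℝ) ≤ n := by exact_mod_cast hn
  rw [div_le_iff₀ hn']
  have hK := K_le a n
  have hK0 : (0 : ℝ) ≤ K a n := Nat.cast_nonneg _
  have hK3 : (K a n : ℝ) ^ 3 ≤ (n : ℝ) ^ (3 * a) := by
    calc (K a n : ℝ) ^ 3 ≤ ((n : ℝ) ^ a) ^ 3 := by gcongr
      _ = (n : ℝ) ^ (3 * a) := by
          rw [← Real.rpow_natCast, ← Real.rpow_mul hn'.le]
          congr 1
          push_cast
          ring
  have e1 : 2 * (n : ℝ) ^ b * (n : ℝ) ^ (3 * a) = 2 * (n : ℝ) ^ (3 * a + b) := by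
    rw [Real.rpow_add hn']
    ring
  have e2 : (n : ℝ) ^ a ≤ (n : ℝ) ^ (3 * a + b) :=
    Real.rpow_le_rpow_of_exponent_le hn1 (by linarith)
  have e3 : 4 * (n : ℝ) ^ (-(1 - (3 * a + b))) * n = 4 * (n : ℝ) ^ (3 * a + b) := by
    rw [mul_assoc]
    nth_rewrite 2 [← Real.rpow_one (n : ℝ)]
    rw [← Real.rpow_add hn']
    congr 2
    ring
  rw [e3]
  push_cast
  calc (Q b n : ℝ) * (K a n : ℝ) ^ 3 + 2 * K a n ≤
        2 * (n : ℝ) ^ b * (n : ℝ) ^ (3 * a) + 2 * (n : ℝ) ^ a := by gcongr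
    _ ≤ 4 * (n : ℝ) ^ (3 * a + b) := by rw [e1]; linarith

lemma entry_tendsto (a ε : ℝ) (ha : 0 < a) (hε : ε < a / 2) :
    Tendsto (fun n : ℕ => Real.sqrt (1 / K a n) * (n : ℝ) ^ ε) atTop (nhds 0) := by
  have h1 : Tendsto (fun n : ℕ => Real.sqrt 2 * (n : ℝ) ^ (-(a / 2 - ε))) atTop (nhds 0) := by
    have := ((tendsto_rpow_neg_atTop (y := a / 2 - ε) (by linarith)).comp
      tendsto_natCast_atTop_atTop).const_mul (Real.sqrt 2)
    simpa using this
  refine squeeze_zero' (Eventually.of_forall fun n => by positivity) ?_ h1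
  filter_upwards [K_ge a ha, eventually_gt_atTop 0] with n hK hn
  have hn' : (0 : ℝ) < n := by exact_mod_cast hn
  have hpa : 0 < (n : ℝ) ^ a := Real.rpow_pos_of_pos hn' _
  have h2 : Real.sqrt (1 / K a n) ≤ Real.sqrt 2 * (n : ℝ) ^ (-(a / 2)) := by
    have e1 : (1 : ℝ) / K a n ≤ 2 * (n : ℝ) ^ (-a) := by
      rw [Real.rpow_neg hn'.le, ← div_eq_mul_inv]
      have := one_div_le_one_div_of_le (by positivity) hK.1
      refine this.trans (le_of_eq ?_)
      field_simp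
    refine (Real.sqrt_le_sqrt e1).trans (le_of_eq ?_)
    rw [Real.sqrt_mul (by norm_num), Real.sqrt_eq_rpow ((n : ℝ) ^ (-a)),
      ← Real.rpow_mul hn'.le]
    congr 2
    ring
  calc Real.sqrt (1 / K a n) * (n : ℝ) ^ ε ≤
        Real.sqrt 2 * (n : ℝ) ^ (-(a / 2)) * (n : ℝ) ^ ε := by gcongr
    _ = Real.sqrt 2 * (n : ℝ) ^ (-(a / 2 - ε)) := by
        rw [mul_assoc, ← Real.rpow_add hn']
        congr 2
        ring

lemma prob_tendsto (a b : ℝ) (ha : 0 < a) (hb : 0 < b) (ρ : ℝ≥0∞) (hρ : ρ < 1) :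
    Tendsto (fun n : ℕ => (K a n : ℝ≥0∞) ^ 2 * ρ ^ (Q b n - 1)) atTop (nhds 0) := by
  obtain ⟨r, hr0, hr1, hρr⟩ : ∃ r : ℝ, 0 < r ∧ r < 1 ∧ ρ ≤ ENNReal.ofReal r := by
    refine ⟨(ρ.toReal + 1) / 2, ?_, ?_, ?_⟩
    · have := ENNReal.toReal_nonneg (a := ρ); linarith
    · have : ρ.toReal < 1 := by
        have := (ENNReal.toReal_lt_toReal hρ.ne_top ENNReal.one_ne_top).2 hρ
        simpa using this
      linarith
    · have h1 : ρ.toReal < 1 := by
        have := (ENNReal.toReal_lt_toReal hρ.ne_top ENNReal.one_ne_top).2 hρ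
        simpa using this
      calc ρ = ENNReal.ofReal ρ.toReal := (ENNReal.ofReal_toReal hρ.ne_top).symm
        _ ≤ ENNReal.ofReal ((ρ.toReal + 1) / 2) := ENNReal.ofReal_le_ofReal (by linarith)
  set c : ℝ := -Real.log r with hc
  have hc0 : 0 < c := by rw [hc]; have := Real.log_neg hr0 hr1; linarith
  have h1 : Tendsto (fun n : ℕ => r⁻¹ * (((n : ℝ) ^ b) ^ (2 * a / b) *
      Real.exp (-c * (n : ℝ) ^ b))) atTop (nhds 0) := by
    have := ((tendsto_rpow_mul_exp_neg_mul_atTop_nhds_zero (2 * a / b) c hc0).comp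
      (tendsto_pow b hb)).const_mul r⁻¹
    simpa using this
  have h2 : Tendsto (fun n : ℕ => ENNReal.ofReal (r⁻¹ * (((n : ℝ) ^ b) ^ (2 * a / b) *
      Real.exp (-c * (n : ℝ) ^ b)))) atTop (nhds 0) := by
    have := ENNReal.tendsto_ofReal h1
    simpa using this
  refine tendsto_of_tendsto_of_tendsto_of_le_of_le' tendsto_const_nhds h2
    (Eventually.of_forall fun n => bot_le) ?_
  filter_upwards [eventually_gt_atTop 0] with n hn
  have hn' : (0 : ℝ) < n := by exact_mod_cast hn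
  have e1 : (K a n : ℝ≥0∞) ^ 2 * ρ ^ (Q b n - 1) ≤
      ENNReal.ofReal ((K a n : ℝ) ^ 2 * r ^ (Q b n - 1)) := by
    rw [ENNReal.ofReal_mul (by positivity), ENNReal.ofReal_pow (Nat.cast_nonneg _),
      ENNReal.ofReal_pow hr0.le, ENNReal.ofReal_natCast]
    gcongr
  refine e1.trans (ENNReal.ofReal_le_ofReal ?_)
  have hK := K_le a n
  have e2 : (K a n : ℝ) ^ 2 ≤ ((n : ℝ) ^ b) ^ (2 * a / b) := by
    calc (K a n : ℝ) ^ 2 ≤ ((n : ℝ) ^ a) ^ 2 := by gcongr
      _ = ((n : ℝ) ^ b) ^ (2 * a / b) := by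
          rw [← Real.rpow_natCast, ← Real.rpow_mul hn'.le, ← Real.rpow_mul hn'.le]
          congr 1
          push_cast
          field_simp
  have e3 : r ^ (Q b n - 1) ≤ r⁻¹ * Real.exp (-c * (n : ℝ) ^ b) := by
    have e4 : Q b n - 1 = ⌊(n : ℝ) ^ b⌋₊ := by unfold Q; omega
    rw [e4, ← Real.rpow_natCast]
    have e5 : (n : ℝ) ^ b - 1 ≤ (⌊(n : ℝ) ^ b⌋₊ : ℝ) := by
      have := Nat.lt_floor_add_one ((n : ℝ) ^ b)
      linarith
    calc r ^ ((⌊(n : ℝ) ^ b⌋₊ : ℕ) : ℝ) ≤ r ^ ((n : ℝ) ^ b - 1) :=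
          Real.rpow_le_rpow_of_exponent_ge hr0 hr1.le e5
      _ = r⁻¹ * Real.exp (-c * (n : ℝ) ^ b) := by
          rw [Real.rpow_sub hr0, Real.rpow_one, div_eq_inv_mul, Real.rpow_def_of_pos hr0]
          congr 2
          rw [hc]
          ring
  calc (K a n : ℝ) ^ 2 * r ^ (Q b n - 1) ≤
        ((n : ℝ) ^ b) ^ (2 * a / b) * (r⁻¹ * Real.exp (-c * (n : ℝ) ^ b)) := by
          gcongr
    _ = r⁻¹ * (((n : ℝ) ^ b) ^ (2 * a / b) * Real.exp (-c * (n : ℝ) ^ b)) := by ring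

/-- **Main theorem for laws with an atom at zero.** -/
theorem main_atom (ε : ℝ) (hε0 : 0 < ε) (hε : ε < 1 / 6) :
    ∃ U : ∀ n : ℕ, Matrix (Fin n) (Fin n) ℝ,
      (∀ n i j, 0 ≤ U n i j) ∧
      (∀ n (j : Fin n), ∑ i, U n i j ^ 2 = 1) ∧
      (∀ n (i : Fin n), ∑ j, U n i j ^ 2 = 1) ∧
      (∀ δ : ℝ, 0 < δ → ∀ᶠ n in atTop, ∀ i j : Fin n, U n i j * (n : ℝ) ^ ε ≤ δ) ∧
      ∀ (Ω : Type) [MeasurableSpace Ω] (P : Measure Ω) [IsProbabilityMeasure P]
        (X : ℕ × ℕ → Ω → ℂ),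
        iIndepFun X P →
        (∀ p, IdentDistrib (X p) (X (0, 0)) P P) →
        P {ω | X (0, 0) ω = 0} ≠ 0 →
        ∀ f : BoundedContinuousFunction ℂ ℝ, ∀ δ : ℝ, 0 < δ →
          Tendsto
            (fun n : ℕ => P {ω | δ <
              |((Matrix.charpoly (Matrix.of (fun i j : Fin n =>
                    ((U n i j : ℝ) : ℂ) * X (i.val, j.val) ω))).roots.map
                    (fun z => f z)).sum / (n : ℝ) - f 0|})
            atTop (nhds 0) := by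
  obtain ⟨a, ha1, ha2⟩ : ∃ a : ℝ, 2 * ε < a ∧ a < 1 / 3 := ⟨(2 * ε + 1 / 3) / 2, by linarith,
    by linarith⟩
  have ha : 0 < a := by linarith
  obtain ⟨b, hb, hab⟩ : ∃ b : ℝ, 0 < b ∧ 3 * a + b < 1 := ⟨(1 - 3 * a) / 2, by linarith,
    by linarith⟩
  choose U hU0 hUc hUr hU using fun n : ℕ => exists_U' n (K a n) (Q b n)
  have hsize := size_tendsto a b ha hb hab
  have hgood : ∀ᶠ n : ℕ in atTop, 0 < K a n ∧ 0 < Q b n ∧
      Q b n * K a n ^ 3 + 2 * K a n ≤ n := by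
    filter_upwards [K_ge a ha, hsize.eventually (gt_mem_nhds (show (0 : ℝ) < 1 by norm_num)),
      eventually_gt_atTop 0] with n hK hs hn
    refine ⟨hK.2, by unfold Q; omega, ?_⟩
    have hn' : (0 : ℝ) < n := by exact_mod_cast hn
    rw [div_lt_iff₀ hn', one_mul] at hs
    exact_mod_cast hs.le
  refine ⟨U, hU0, hUc, hUr, ?_, ?_⟩
  · intro δ hδ
    filter_upwards [hgood, (entry_tendsto a ε ha (by linarith)).eventually (gt_mem_nhds hδ)] with
      n hn hs i j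
    exact (mul_le_mul_of_nonneg_right ((hU n hn).1 i j) (by positivity)).trans hs.le
  · intro Ω _ P _ X hI hid h0 f δ hδ
    set ρ : ℝ≥0∞ := P {ω | X (0, 0) ω ≠ 0} with hρ
    have hm0 : NullMeasurableSet {ω | X (0, 0) ω = 0} P :=
      (hid (0, 0)).aemeasurable_fst.nullMeasurable (measurableSet_singleton (0 : ℂ))
    have hρ1 : ρ < 1 := by
      have h1 : ρ = 1 - P {ω | X (0, 0) ω = 0} := by
        rw [hρ, ← prob_compl_eq_one_sub₀ hm0]
        rfl
      rw [h1]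
      exact ENNReal.sub_lt_self ENNReal.one_ne_top one_ne_zero h0
    have hρp : ∀ p, P {ω | X p ω ≠ 0} ≤ ρ := by
      intro p
      exact ((hid p).measure_mem_eq (measurableSet_singleton (0 : ℂ)).compl).le
    have hlim := prob_tendsto a b ha hb ρ hρ1
    refine tendsto_of_tendsto_of_tendsto_of_le_of_le' tendsto_const_nhds hlim
      (Eventually.of_forall fun n => bot_le) ?_
    have hsize2 : Tendsto (fun n : ℕ => 2 * ‖f‖ *
        (((Q b n * K a n ^ 3 + 2 * K a n : ℕ) : ℝ) / n)) atTop (nhds 0) := by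
      have := hsize.const_mul (2 * ‖f‖)
      simpa using this
    filter_upwards [hgood, hsize2.eventually (gt_mem_nhds hδ), eventually_gt_atTop 0] with
      n hn hs hn0
    refine (measure_mono ?_).trans ((hU n hn).2 Ω P X hI ρ hρp)
    intro ω hω hev
    obtain ⟨m, hm, hd⟩ := hev
    have h3 := stat_bound f _ (Matrix.charpoly_monic _).ne_zero n m _ hn0
      (by rw [Matrix.charpoly_natDegree_eq_dim, Fintype.card_fin]) hm hd
    rw [Set.mem_ofPred_eq] at hω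
    exact absurd (lt_of_lt_of_le hω h3) (not_lt.2 hs.le)

end Pool.Agent.Lib.H67C
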