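import Pool.Agent.Lib.H67C.Fin

/-!
# Assembly
-/

set_option autoImplicit false

open Finset Polynomial Matrix MeasureTheory ProbabilityTheory Filter
open scoped ENNReal

namespace Pool.Agent.Lib.H67C

/-- the test function -/
noncomputable def f : BoundedContinuousFunction ℂ ℝ :=
  BoundedContinuousFunction.ofNormedAddCommGroup (fun z => max 0 (1 - 2 * ‖z‖)) (by fun_prop) 1
    (fun z => by
      have := norm_nonneg z
      rw [Real.norm_of_nonneg (le_max_left _ _)]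
      exact max_le (by norm_num) (by linarith))

lemma f_apply (z : ℂ) : f z = max 0 (1 - 2 * ‖z‖) := rfl

lemma f_nonneg (z : ℂ) : 0 ≤ f z := le_max_left _ _

lemma f_zero : f 0 = 1 := by rw [f_apply]; simp

lemma f_integral : (1 / Real.pi) * ∫ z in Metric.closedBall (0 : ℂ) 1, f z ≤ 1 / 4 := by
  have hm : MeasurableSet (Metric.closedBall (0 : ℂ) (1 / 2)) := measurableSet_closedBall
  have h1 : ∫ z in Metric.closedBall (0 : ℂ) 1, f z ≤
      ∫ z in Metric.closedBall (0 : ℂ) 1,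
        (Metric.closedBall (0 : ℂ) (1 / 2)).indicator (fun _ => (1 : ℝ)) z := by
    apply MeasureTheory.setIntegral_mono_on
    · exact f.continuous.continuousOn.integrableOn_compact (isCompact_closedBall _ _)
    · refine IntegrableOn.indicator ?_ hm
      exact integrableOn_const (by
        rw [Complex.volume_closedBall]
        exact ENNReal.mul_ne_top (by simp) (by simp))
    · exact measurableSet_closedBall
    · intro z _
      by_cases hz : z ∈ Metric.closedBall (0 : ℂ) (1 / 2)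
      · rw [Set.indicator_of_mem hz, f_apply]
        have := norm_nonneg z
        exact max_le (by norm_num) (by linarith)
      · rw [Set.indicator_of_notMem hz, f_apply]
        rw [mem_closedBall_zero_iff, not_le] at hz
        exact max_le le_rfl (by linarith)
  have h2 : ∫ z in Metric.closedBall (0 : ℂ) 1,
        (Metric.closedBall (0 : ℂ) (1 / 2)).indicator (fun _ => (1 : ℝ)) z = Real.pi / 4 := by
    rw [setIntegral_indicator hm, setIntegral_const, smul_eq_mul, mul_one]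
    have h3 : Metric.closedBall (0 : ℂ) 1 ∩ Metric.closedBall (0 : ℂ) (1 / 2) =
        Metric.closedBall (0 : ℂ) (1 / 2) :=
      Set.inter_eq_right.2 (Metric.closedBall_subset_closedBall (by norm_num))
    rw [h3, measureReal_def, Complex.volume_closedBall]
    rw [ENNReal.toReal_mul, ENNReal.toReal_pow, ENNReal.toReal_ofReal (by norm_num)]
    simp
    ring
  rw [h2] at h1
  have hpi := Real.pi_pos
  calc (1 / Real.pi) * ∫ z in Metric.closedBall (0 : ℂ) 1, f z ≤ (1 / Real.pi) * (Real.pi / 4) :=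
        mul_le_mul_of_nonneg_left h1 (by positivity)
    _ = 1 / 4 := by field_simp

/-- many zero eigenvalues force a large value of the test function -/
lemma sum_ge (p : ℂ[X]) (hp : p ≠ 0) (m : ℕ) (h : (X : ℂ[X]) ^ m ∣ p) :
    (m : ℝ) ≤ (p.roots.map (fun z => f z)).sum := by
  obtain ⟨r, rfl⟩ := h
  rw [Polynomial.roots_mul hp, Polynomial.roots_X_pow, Multiset.map_add, Multiset.sum_add,
    Multiset.map_nsmul, Multiset.sum_nsmul]
  simp only [Multiset.map_singleton, Multiset.sum_singleton, f_zero, nsmul_eq_mul, mul_one]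
  have : 0 ≤ (r.roots.map (fun z => f z)).sum := by
    apply Multiset.sum_nonneg
    intro x hx
    rw [Multiset.mem_map] at hx
    obtain ⟨z, _, rfl⟩ := hx
    exact f_nonneg z
  linarith

lemma Ev_subset {Ω : Type} (n : ℕ) (hn : 0 < n) (U : Matrix (Fin n) (Fin n) ℝ)
    (Y : ℕ × ℕ → Ω → ℂ) :
    Ev n U Y ⊆ {ω | (1 / 4 : ℝ) <
              |((Matrix.charpoly (Matrix.of (fun i j : Fin n =>
                    ((U i j : ℝ) : ℂ) * Y (i.val, j.val) ω))).roots.map
                    (fun z => f z)).sum / (n : ℝ)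
                - (1 / Real.pi) * ∫ z in Metric.closedBall (0 : ℂ) 1, f z|} := by
  rintro ω ⟨m, hm, hd⟩
  have h1 := sum_ge _ (Matrix.charpoly_monic _).ne_zero m hd
  have h2 := f_integral
  have hn' : (0 : ℝ) < n := by exact_mod_cast hn
  have h3 : (3 : ℝ) * n ≤ 4 * m := by exact_mod_cast hm
  have h4 : (3 / 4 : ℝ) ≤ ((Matrix.charpoly (Matrix.of (fun i j : Fin n =>
                    ((U i j : ℝ) : ℂ) * Y (i.val, j.val) ω))).roots.map
                    (fun z => f z)).sum / (n : ℝ) := by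
    rw [le_div_iff₀ hn']
    linarith
  rw [Set.mem_ofPred_eq]
  refine lt_of_lt_of_le ?_ (le_abs_self _)
  linarith

lemma eps_cond (U : ∀ n : ℕ, Matrix (Fin n) (Fin n) ℝ)
    (hU : ∀ n i j, U n i j ≤ (n : ℝ) ^ (-(1 / 12) : ℝ)) :
    ∃ ε : ℝ, 0 < ε ∧ ∀ δ : ℝ, 0 < δ →
          ∀ᶠ n in atTop, ∀ i j : Fin n, U n i j * (n : ℝ) ^ ε ≤ δ := by
  refine ⟨1 / 24, by norm_num, fun δ hδ => ?_⟩
  have h1 : Tendsto (fun n : ℕ => (n : ℝ) ^ (-(1 / 24) : ℝ)) atTop (nhds 0) :=
    (tendsto_rpow_neg_atTop (by norm_num)).comp tendsto_natCast_atTop_atTop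
  filter_upwards [h1.eventually (gt_mem_nhds hδ), eventually_gt_atTop 0] with n hn hn0 i j
  have hn' : (0 : ℝ) < n := by exact_mod_cast hn0
  calc U n i j * (n : ℝ) ^ (1 / 24 : ℝ) ≤ (n : ℝ) ^ (-(1 / 12) : ℝ) * (n : ℝ) ^ (1 / 24 : ℝ) :=
        mul_le_mul_of_nonneg_right (hU n i j) (by positivity)
    _ = (n : ℝ) ^ (-(1 / 24) : ℝ) := by
        rw [← Real.rpow_add hn']
        norm_num
    _ ≤ δ := hn.le

lemma exists_good (N : ℕ) : ∃ n, N ≤ n ∧ 0 < n ∧ ∃ k, 4 ≤ k ∧ n = k ^ 5 + k ^ 4 := by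
  obtain ⟨k, hk4, hkN⟩ : ∃ k, 4 ≤ k ∧ N ≤ k := ⟨max 4 N, le_max_left _ _, le_max_right _ _⟩
  have hk0 : 0 < k := by omega
  have hp4 : 0 < k ^ 4 := Nat.pow_pos hk0
  have h2 : k * 1 ≤ k * k ^ 4 := Nat.mul_le_mul_left _ hp4
  have h3 : k * k ^ 4 = k ^ 5 := by ring
  refine ⟨k ^ 5 + k ^ 4, ?_, ?_, k, hk4, rfl⟩
  · omega
  · omega

/-- the probability space -/
noncomputable def PP : Measure (ℕ × ℕ → ℂ) := Measure.infinitePi (fun _ => law)

noncomputable instance : IsProbabilityMeasure PP := by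
  unfold PP; infer_instance

lemma PP_mp (p : ℕ × ℕ) : MeasurePreserving (fun ω : ℕ × ℕ → ℂ => ω p) PP law :=
  measurePreserving_eval_infinitePi (fun _ : ℕ × ℕ => law) p

lemma PP_indep : iIndepFun (fun (p : ℕ × ℕ) (ω : ℕ × ℕ → ℂ) => ω p) PP :=
  iIndepFun_infinitePi (P := fun _ : ℕ × ℕ => law) (X := fun _ x => x) (fun _ => measurable_id)

lemma PP_ident (p : ℕ × ℕ) :
    IdentDistrib (fun ω : ℕ × ℕ → ℂ => ω p) (fun ω : ℕ × ℕ → ℂ => ω (0, 0)) PP PP :=
  ⟨(PP_mp p).measurable.aemeasurable, (PP_mp (0, 0)).measurable.aemeasurable, by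
    rw [(PP_mp p).map_eq, (PP_mp (0, 0)).map_eq]⟩

lemma PP_memLp : MemLp (fun ω : ℕ × ℕ → ℂ => ω (0, 0)) 2 PP :=
  law_memLp.comp_measurePreserving (PP_mp (0, 0))

lemma PP_mean : ∫ ω : ℕ × ℕ → ℂ, ω (0, 0) ∂PP = 0 := by
  have h := integral_map (μ := PP) (φ := fun ω : ℕ × ℕ → ℂ => ω (0, 0)) (f := fun x : ℂ => x)
    (PP_mp (0, 0)).measurable.aemeasurable (by fun_prop)
  rw [(PP_mp (0, 0)).map_eq, law_mean] at h
  exact h.symm

lemma PP_var : ∫ ω : ℕ × ℕ → ℂ, ‖ω (0, 0)‖ ^ 2 ∂PP = 1 := by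
  have h := integral_map (μ := PP) (φ := fun ω : ℕ × ℕ → ℂ => ω (0, 0))
    (f := fun x : ℂ => ‖x‖ ^ 2) (PP_mp (0, 0)).measurable.aemeasurable (by fun_prop)
  rw [(PP_mp (0, 0)).map_eq, law_var] at h
  exact h.symm

lemma PP_ne (p : ℕ × ℕ) : PP {ω | (fun ω : ℕ × ℕ → ℂ => ω p) ω ≠ 0} ≤ 1 / 4 := by
  have hm : MeasurableSet {x : ℂ | x ≠ 0} := (measurableSet_singleton (0 : ℂ)).compl
  have h := (PP_mp p).measure_preimage hm.nullMeasurableSet
  rw [law_ne] at h
  exact h.le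

end Pool.Agent.Lib.H67C
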