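import Pool.Agent.Lib.H67C.Tri

/-!
# With high probability every branch has a dead link
-/

set_option autoImplicit false

open Finset Polynomial Matrix MeasureTheory ProbabilityTheory
open scoped ENNReal

namespace Pool.Agent.Lib.H67C

/-- a single chain of distinct places is alive with small probability -/
lemma chain_alive {Ω : Type} [MeasurableSpace Ω] (P : Measure Ω) [IsProbabilityMeasure P]
    (X : ℕ × ℕ → Ω → ℂ) (hI : iIndepFun X P)
    (h0 : ∀ p, P {ω | X p ω ≠ 0} ≤ 1 / 4) (r : ℕ) (g : Fin r → ℕ × ℕ)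
    (hg : Function.Injective g) :
    P {ω | ∀ s, X (g s) ω ≠ 0} ≤ (1 / 4) ^ r := by
  have h1 := (hI.precomp hg).measure_inter_preimage_eq_mul Finset.univ
    (sets := fun _ => ({0}ᶜ : Set ℂ)) (fun i _ => (measurableSet_singleton _).compl)
  have h2 : {ω | ∀ s, X (g s) ω ≠ 0} = ⋂ i ∈ (Finset.univ : Finset (Fin r)),
      X (g i) ⁻¹' ({0}ᶜ : Set ℂ) := by
    ext ω
    simp
  rw [h2, h1]
  calc ∏ i : Fin r, P (X (g i) ⁻¹' ({0}ᶜ : Set ℂ)) ≤ ∏ _i : Fin r, (1 / 4 : ℝ≥0∞) :=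
        Finset.prod_le_prod' fun i _ => h0 (g i)
    _ = (1 / 4) ^ r := by simp

/-- the profile -/
noncomputable def prof (M q k n : ℕ) (e : T M q k ≃ Fin n) : Matrix (Fin n) (Fin n) ℝ :=
  fun i j => Real.sqrt (W M q k (e.symm i) (e.symm j) / k)

lemma prof_sq (M q k n : ℕ) (e : T M q k ≃ Fin n) (i j : Fin n) :
    prof M q k n e i j ^ 2 = W M q k (e.symm i) (e.symm j) / k := by
  unfold prof
  exact Real.sq_sqrt (div_nonneg (W_nonneg _ _ _ _ _) (Nat.cast_nonneg _))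

lemma prof_row (M q k n : ℕ) (hM : 0 < M) (hq : 0 < q) (hk : 0 < k) (e : T M q k ≃ Fin n)
    (i : Fin n) : ∑ j, prof M q k n e i j ^ 2 = 1 := by
  simp only [prof_sq]
  rw [← Finset.sum_div, Equiv.sum_comp e.symm (fun b => W M q k (e.symm i) b),
    row_sum M q k hM hq]
  exact div_self (by positivity)

lemma prof_col (M q k n : ℕ) (hM : 0 < M) (hq : 0 < q) (hk : 0 < k) (e : T M q k ≃ Fin n)
    (j : Fin n) : ∑ i, prof M q k n e i j ^ 2 = 1 := by
  simp only [prof_sq]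
  rw [← Finset.sum_div, Equiv.sum_comp e.symm (fun a => W M q k a (e.symm j)),
    col_sum M q k hM hq]
  exact div_self (by positivity)

lemma prof_le (M q k n : ℕ) (e : T M q k ≃ Fin n) (i j : Fin n) :
    prof M q k n e i j ≤ Real.sqrt (1 / k) := by
  unfold prof
  exact Real.sqrt_le_sqrt (div_le_div_of_nonneg_right (W_le_one _ _ _ _ _) (Nat.cast_nonneg _))

/-- the deterministic fact, transported to `Fin n` -/
lemma prof_dvd (M q k n : ℕ) (hk : 0 < k) (e : T M q k ≃ Fin n) (x : ℕ × ℕ → ℂ)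
    (hx : ∀ β : Fin k × Fin k, ∃ s : Fin (q - 1),
      x ((e (Sum.inr (β, ⟨s.val, by omega⟩, ⟨0, hk⟩))).val,
        (e (Sum.inr (β, ⟨s.val + 1, by omega⟩, ⟨0, hk⟩))).val) = 0) :
    (X : ℂ[X]) ^ (M * k) ∣
      (Matrix.of (fun i j : Fin n => ((prof M q k n e i j : ℝ) : ℂ) * x (i.val, j.val))).charpoly := by
  set B : Matrix (Fin n) (Fin n) ℂ :=
    Matrix.of (fun i j : Fin n => ((prof M q k n e i j : ℝ) : ℂ) * x (i.val, j.val)) with hB
  have h1 := Matrix.charpoly_reindex e.symm B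
  rw [← h1]
  apply X_pow_dvd
  · intro a b hab
    rw [Matrix.reindex_apply, Matrix.submatrix_apply, hB, Matrix.of_apply]
    simp [prof, hab]
  · intro β
    obtain ⟨s, hs⟩ := hx β
    have hs1 : s.val < q := by have := s.isLt; omega
    have hs2 : s.val + 1 < q := by have := s.isLt; omega
    refine ⟨s.val, hs2, ?_⟩
    intro t t' y y' ht ht' hy hy'
    rw [Matrix.reindex_apply, Matrix.submatrix_apply, hB, Matrix.of_apply]
    have e1 : t = ⟨s.val, hs1⟩ := Fin.ext ht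
    have e2 : t' = ⟨s.val + 1, hs2⟩ := Fin.ext ht'
    have e3 : y = ⟨0, hk⟩ := Fin.ext hy
    have e4 : y' = ⟨0, hk⟩ := Fin.ext hy'
    subst e1
    subst e2
    subst e3
    subst e4
    simp only [Equiv.symm_symm]
    rw [hs, mul_zero]

/-- the probability estimate -/
lemma prof_prob {Ω : Type} [MeasurableSpace Ω] (P : Measure Ω) [IsProbabilityMeasure P]
    (Y : ℕ × ℕ → Ω → ℂ) (hI : iIndepFun Y P)
    (h0 : ∀ p, P {ω | Y p ω ≠ 0} ≤ 1 / 4)
    (M q k n : ℕ) (hk : 0 < k) (e : T M q k ≃ Fin n) :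
    1 ≤ P {ω | (X : ℂ[X]) ^ (M * k) ∣ (Matrix.of (fun i j : Fin n =>
      ((prof M q k n e i j : ℝ) : ℂ) * Y (i.val, j.val) ω)).charpoly} +
      (k : ℝ≥0∞) ^ 2 * (1 / 4) ^ (q - 1) := by
  set G := {ω | (X : ℂ[X]) ^ (M * k) ∣ (Matrix.of (fun i j : Fin n =>
      ((prof M q k n e i j : ℝ) : ℂ) * Y (i.val, j.val) ω)).charpoly} with hG
  let g : Fin k × Fin k → Fin (q - 1) → ℕ × ℕ := fun β s =>
    ((e (Sum.inr (β, ⟨s.val, by omega⟩, ⟨0, hk⟩))).val,
        (e (Sum.inr (β, ⟨s.val + 1, by omega⟩, ⟨0, hk⟩))).val)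
  have hg : ∀ β, Function.Injective (g β) := by
    intro β s s' h
    have h1 := congrArg Prod.fst h
    have h2 := e.injective (Fin.ext h1)
    have h3 := Sum.inr_injective h2
    simp only [Prod.mk.injEq, Fin.mk.injEq, true_and, and_true] at h3
    exact Fin.ext h3
  have hcov : (Set.univ : Set Ω) ⊆ G ∪ ⋃ β : Fin k × Fin k, {ω | ∀ s, Y (g β s) ω ≠ 0} := by
    intro ω _
    by_cases h : ∀ β : Fin k × Fin k, ∃ s : Fin (q - 1), Y (g β s) ω = 0
    · left
      exact prof_dvd M q k n hk e (fun p => Y p ω) h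
    · right
      push Not at h
      obtain ⟨β, hβ⟩ := h
      exact Set.mem_iUnion.2 ⟨β, hβ⟩
  calc (1 : ℝ≥0∞) = P Set.univ := measure_univ.symm
    _ ≤ P (G ∪ ⋃ β : Fin k × Fin k, {ω | ∀ s, Y (g β s) ω ≠ 0}) := measure_mono hcov
    _ ≤ P G + P (⋃ β : Fin k × Fin k, {ω | ∀ s, Y (g β s) ω ≠ 0}) := measure_union_le _ _
    _ ≤ P G + ∑ β : Fin k × Fin k, P {ω | ∀ s, Y (g β s) ω ≠ 0} := by
        gcongr
        exact measure_iUnion_fintype_le P _
    _ ≤ P G + ∑ _β : Fin k × Fin k, (1 / 4 : ℝ≥0∞) ^ (q - 1) := by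
        gcongr with β _
        exact chain_alive P Y hI h0 (q - 1) (g β) (hg β)
    _ = P G + (k : ℝ≥0∞) ^ 2 * (1 / 4) ^ (q - 1) := by
        rw [Finset.sum_const, Finset.card_univ, Fintype.card_prod, Fintype.card_fin, nsmul_eq_mul,
          Nat.cast_mul, sq]

end Pool.Agent.Lib.H67C
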