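import Mathlib

/-!
# A regular digraph with a long path closed through thin parallel branches

Vertices: the path part `Fin M × Fin k` (`M` layers of `k` vertices, consecutive layers completely
joined) and `k ^ 2` branches, each a chain of `q` clusters of `k` vertices; inside a cluster all
arcs except the loop at the hub `0`, and one single arc from the hub of a cluster to the hub of the
next one. The last layer of the path is joined to the first hubs, the last hubs are joined to the
first layer. All out-degrees and in-degrees are `k`.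
-/

set_option autoImplicit false

open Finset

namespace Pool.Agent.Lib.H67C

/-- the vertices -/
abbrev T (M q k : ℕ) : Type := (Fin M × Fin k) ⊕ ((Fin k × Fin k) × Fin q × Fin k)

/-- the indicator of a proposition, as a real number -/
def I (p : Prop) [Decidable p] : ℝ := if p then 1 else 0

lemma I_nonneg (p : Prop) [Decidable p] : 0 ≤ I p := by
  unfold I; split_ifs <;> norm_num

lemma I_le_one (p : Prop) [Decidable p] : I p ≤ 1 := by
  unfold I; split_ifs <;> norm_num

/-- the adjacency matrix -/
def W (M q k : ℕ) : T M q k → T M q k → ℝ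
  | Sum.inl (c, _), Sum.inl (d, _) => I (d.val = c.val + 1)
  | Sum.inl (c, i), Sum.inr (β, t, y) =>
      I (c.val + 1 = M) * (I (β.1 = i) * (I (t.val = 0) * I (y.val = 0)))
  | Sum.inr (β, t, x), Sum.inl (d, j) =>
      I (t.val + 1 = q) * (I (x.val = 0) * (I (d.val = 0) * I (j = β.2)))
  | Sum.inr (β, t, x), Sum.inr (β', t', y) =>
      I (β' = β) * (I (t' = t) * (1 - I (x.val = 0) * I (y.val = 0))) +
      I (β' = β) * (I (t'.val = t.val + 1) * (I (x.val = 0) * I (y.val = 0)))

/-- the adjacency matrix has entries `0` and `1` only -/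
lemma W_nonneg (M q k : ℕ) (a b : T M q k) : 0 ≤ W M q k a b := by
  rcases a with ⟨c, i⟩ | ⟨β, t, x⟩ <;> rcases b with ⟨d, j⟩ | ⟨β', t', y⟩ <;>
    simp only [W, I] <;> split_ifs <;> norm_num

lemma W_le_one (M q k : ℕ) (a b : T M q k) : W M q k a b ≤ 1 := by
  rcases a with ⟨c, i⟩ | ⟨β, t, x⟩ <;> rcases b with ⟨d, j⟩ | ⟨β', t', y⟩
  · simp only [W]; exact I_le_one _
  · simp only [W, I]; split_ifs <;> norm_num
  · simp only [W, I]; split_ifs <;> norm_num
  · simp only [W, I]
    by_cases h1 : t' = t
    · subst h1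
      have h2 : ¬ (t'.val = t'.val + 1) := by omega
      simp only [h2, if_false]
      split_ifs <;> norm_num
    · simp only [h1, if_false]
      split_ifs <;> norm_num

lemma sum_I_val (N a : ℕ) : ∑ d : Fin N, I (d.val = a) = I (a < N) := by
  by_cases h : a < N
  · rw [Finset.sum_eq_single ⟨a, h⟩]
    · simp [I, h]
    · intro b _ hb
      have : ¬ (b.val = a) := fun h' => hb (Fin.ext h')
      simp [I, this]
    · intro h'
      exact absurd (Finset.mem_univ _) h'
  · rw [Finset.sum_eq_zero]
    · simp [I, h]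
    · intro b _
      have : ¬ (b.val = a) := fun h' => h (h' ▸ b.isLt)
      simp [I, this]

lemma sum_I_eq {α : Type*} [Fintype α] [DecidableEq α] (a : α) : ∑ d : α, I (d = a) = 1 := by
  simp [I]

lemma sum_I_eq' {α : Type*} [Fintype α] [DecidableEq α] (a : α) : ∑ d : α, I (a = d) = 1 := by
  simp [I]

lemma sum_I_succ (N a : ℕ) : ∑ d : Fin N, I (a = d.val + 1) = I (1 ≤ a ∧ a ≤ N) := by
  by_cases h : 1 ≤ a ∧ a ≤ N
  · rw [Finset.sum_eq_single ⟨a - 1, by omega⟩]
    · have : a = a - 1 + 1 := by omega
      simp only [I, h, and_self, if_true]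
      rw [if_pos this]
    · intro b _ hb
      have : ¬ (a = b.val + 1) := fun h' => hb (Fin.ext (by simp; omega))
      simp [I, this]
    · intro h'
      exact absurd (Finset.mem_univ _) h'
  · rw [Finset.sum_eq_zero]
    · simp [I, h]
    · intro b _
      have : ¬ (a = b.val + 1) := fun h' => h ⟨by omega, by have := b.isLt; omega⟩
      simp [I, this]

lemma sum_mul2 {A B : Type*} [Fintype A] [Fintype B] (f : A → ℝ) (g : B → ℝ) :
    ∑ p : A × B, f p.1 * g p.2 = (∑ a, f a) * ∑ b, g b := by
  rw [Fintype.sum_prod_type, Finset.sum_mul_sum]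

lemma sum_mul3 {A B C : Type*} [Fintype A] [Fintype B] [Fintype C] (f : A → ℝ) (g : B → ℝ)
    (h : C → ℝ) :
    ∑ p : A × B × C, f p.1 * (g p.2.1 * h p.2.2) = (∑ a, f a) * ((∑ b, g b) * ∑ c, h c) := by
  rw [sum_mul2 f (fun p : B × C => g p.1 * h p.2), sum_mul2]

lemma sum_fst (k : ℕ) (i : Fin k) : ∑ β : Fin k × Fin k, I (β.1 = i) = k := by
  have h := sum_mul2 (fun a : Fin k => I (a = i)) (fun _ : Fin k => (1 : ℝ))
  simp only [mul_one, sum_I_eq, Finset.sum_const, Finset.card_univ, Fintype.card_fin,
    nsmul_eq_mul, one_mul] at h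
  exact h

lemma sum_snd (k : ℕ) (i : Fin k) : ∑ β : Fin k × Fin k, I (i = β.2) = k := by
  have h := sum_mul2 (fun _ : Fin k => (1 : ℝ)) (fun a : Fin k => I (i = a))
  simp only [mul_one, sum_I_eq', Finset.sum_const, Finset.card_univ, Fintype.card_fin,
    nsmul_eq_mul, one_mul] at h
  exact h

lemma sum_I_last (N : ℕ) (hN : 0 < N) : ∑ t : Fin N, I (t.val + 1 = N) = 1 := by
  have h := sum_I_val N (N - 1)
  have h1 : I (N - 1 < N) = 1 := by simp [I]; omega
  rw [h1] at h
  rw [← h]
  refine Finset.sum_congr rfl fun t _ => ?_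
  unfold I
  have : t.val + 1 = N ↔ t.val = N - 1 := by omega
  simp only [this]

/-- out-degrees -/
lemma row_sum (M q k : ℕ) (hM : 0 < M) (hq : 0 < q) (a : T M q k) :
    ∑ b, W M q k a b = k := by
  rcases a with ⟨c, i⟩ | ⟨β, t, x⟩
  · have hk : 0 < k := i.pos
    rw [Fintype.sum_sum_type]
    have h1 : ∑ p : Fin M × Fin k, W M q k (Sum.inl (c, i)) (Sum.inl p) =
        I (c.val + 1 < M) * k := by
      have := sum_mul2 (fun d : Fin M => I (d.val = c.val + 1)) (fun _ : Fin k => (1 : ℝ))
      simp only [mul_one, sum_I_val, Finset.sum_const, Finset.card_univ, Fintype.card_fin,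
        nsmul_eq_mul] at this
      exact this
    have h2 : ∑ p : (Fin k × Fin k) × Fin q × Fin k, W M q k (Sum.inl (c, i)) (Sum.inr p) =
        I (c.val + 1 = M) * k := by
      have := sum_mul3 (fun β : Fin k × Fin k => I (β.1 = i)) (fun t : Fin q => I (t.val = 0))
        (fun y : Fin k => I (y.val = 0))
      rw [sum_fst, sum_I_val, sum_I_val] at this
      have h3 : I (0 < q) = 1 := by simp [I, hq]
      have h4 : I (0 < k) = 1 := by simp [I, hk]
      rw [h3, h4] at this
      simp only [mul_one] at this
      rw [← this, Finset.mul_sum]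
      rfl
    rw [h1, h2]
    have hc := c.isLt
    by_cases h : c.val + 1 < M
    · have h' : ¬ (c.val + 1 = M) := by omega
      simp [I, h, h']
    · have h' : c.val + 1 = M := by omega
      simp [I, h']
  · have hk : 0 < k := x.pos
    rw [Fintype.sum_sum_type]
    have h1 : ∑ p : Fin M × Fin k, W M q k (Sum.inr (β, t, x)) (Sum.inl p) =
        I (t.val + 1 = q) * I (x.val = 0) := by
      have := sum_mul2 (fun d : Fin M => I (d.val = 0)) (fun j : Fin k => I (j = β.2))
      rw [sum_I_val, sum_I_eq] at this
      have h3 : I (0 < M) = 1 := by simp [I, hM]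
      rw [h3, one_mul] at this
      rw [← mul_one (I (t.val + 1 = q) * I (x.val = 0)), ← this, Finset.mul_sum]
      refine Finset.sum_congr rfl fun p _ => ?_
      simp only [W]
      ring
    have h2 : ∑ p : (Fin k × Fin k) × Fin q × Fin k, W M q k (Sum.inr (β, t, x)) (Sum.inr p) =
        (k - I (x.val = 0)) + I (t.val + 1 < q) * I (x.val = 0) := by
      have e1 := sum_mul3 (fun β' : Fin k × Fin k => I (β' = β)) (fun t' : Fin q => I (t' = t))
        (fun y : Fin k => 1 - I (x.val = 0) * I (y.val = 0))
      have e2 := sum_mul3 (fun β' : Fin k × Fin k => I (β' = β))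
        (fun t' : Fin q => I (t'.val = t.val + 1))
        (fun y : Fin k => I (x.val = 0) * I (y.val = 0))
      rw [sum_I_eq, sum_I_eq, Finset.sum_sub_distrib, ← Finset.mul_sum, sum_I_val] at e1
      rw [sum_I_eq, sum_I_val, ← Finset.mul_sum, sum_I_val] at e2
      have h4 : I (0 < k) = 1 := by simp [I, hk]
      rw [h4] at e1 e2
      simp only [mul_one, one_mul, Finset.sum_const, Finset.card_univ, Fintype.card_fin,
        nsmul_eq_mul] at e1 e2
      rw [← e1, ← e2, ← Finset.sum_add_distrib]
      refine Finset.sum_congr rfl fun p _ => ?_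
      simp only [W]
    rw [h1, h2]
    have ht := t.isLt
    by_cases h : t.val + 1 < q
    · have h' : ¬ (t.val + 1 = q) := by omega
      simp [I, h, h']
    · have h' : t.val + 1 = q := by omega
      simp [I, h']

/-- in-degrees -/
lemma col_sum (M q k : ℕ) (hM : 0 < M) (hq : 0 < q) (b : T M q k) :
    ∑ a, W M q k a b = k := by
  rcases b with ⟨d, j⟩ | ⟨β', t', y⟩
  · have hk : 0 < k := j.pos
    rw [Fintype.sum_sum_type]
    have h1 : ∑ p : Fin M × Fin k, W M q k (Sum.inl p) (Sum.inl (d, j)) =
        I (1 ≤ d.val ∧ d.val ≤ M) * k := by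
      have := sum_mul2 (fun c : Fin M => I (d.val = c.val + 1)) (fun _ : Fin k => (1 : ℝ))
      simp only [mul_one, sum_I_succ, Finset.sum_const, Finset.card_univ, Fintype.card_fin,
        nsmul_eq_mul] at this
      exact this
    have h2 : ∑ p : (Fin k × Fin k) × Fin q × Fin k, W M q k (Sum.inr p) (Sum.inl (d, j)) =
        I (d.val = 0) * k := by
      have := sum_mul3 (fun β : Fin k × Fin k => I (j = β.2)) (fun t : Fin q => I (t.val + 1 = q))
        (fun x : Fin k => I (x.val = 0))
      have h5 := sum_I_last q hq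
      rw [sum_snd, h5, sum_I_val] at this
      have h4 : I (0 < k) = 1 := by simp [I, hk]
      rw [h4] at this
      simp only [mul_one] at this
      rw [← this, Finset.mul_sum]
      refine Finset.sum_congr rfl fun p _ => ?_
      simp only [W]
      ring
    rw [h1, h2]
    have hd := d.isLt
    by_cases h : d.val = 0
    · simp [I, h]
    · have h' : 1 ≤ d.val ∧ d.val ≤ M := by omega
      simp [I, h, h']
  · have hk : 0 < k := y.pos
    rw [Fintype.sum_sum_type]
    have h1 : ∑ p : Fin M × Fin k, W M q k (Sum.inl p) (Sum.inr (β', t', y)) =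
        I (t'.val = 0) * I (y.val = 0) := by
      have := sum_mul2 (fun c : Fin M => I (c.val + 1 = M)) (fun i : Fin k => I (β'.1 = i))
      have h5 := sum_I_last M hM
      rw [h5, sum_I_eq', one_mul] at this
      rw [← mul_one (I (t'.val = 0) * I (y.val = 0)), ← this, Finset.mul_sum]
      refine Finset.sum_congr rfl fun p _ => ?_
      simp only [W]
      ring
    have h2 : ∑ p : (Fin k × Fin k) × Fin q × Fin k, W M q k (Sum.inr p) (Sum.inr (β', t', y)) =
        (k - I (y.val = 0)) + I (1 ≤ t'.val) * I (y.val = 0) := by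
      have e1 := sum_mul3 (fun β : Fin k × Fin k => I (β' = β)) (fun t : Fin q => I (t' = t))
        (fun x : Fin k => 1 - I (x.val = 0) * I (y.val = 0))
      have e2 := sum_mul3 (fun β : Fin k × Fin k => I (β' = β))
        (fun t : Fin q => I (t'.val = t.val + 1))
        (fun x : Fin k => I (x.val = 0) * I (y.val = 0))
      rw [sum_I_eq', sum_I_eq', Finset.sum_sub_distrib, ← Finset.sum_mul, sum_I_val] at e1
      rw [sum_I_eq', sum_I_succ, ← Finset.sum_mul, sum_I_val] at e2
      have h4 : I (0 < k) = 1 := by simp [I, hk]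
      have h5 : I (1 ≤ t'.val ∧ t'.val ≤ q) = I (1 ≤ t'.val) := by
        have ht := t'.isLt
        congr 1
        exact propext (by omega)
      rw [h4] at e1 e2
      rw [h5] at e2
      simp only [mul_one, one_mul, Finset.sum_const, Finset.card_univ, Fintype.card_fin,
        nsmul_eq_mul] at e1 e2
      rw [← e1, ← e2, ← Finset.sum_add_distrib]
      refine Finset.sum_congr rfl fun p _ => ?_
      simp only [W]
    rw [h1, h2]
    by_cases h : t'.val = 0
    · simp [I, h]
    · have h' : 1 ≤ t'.val := by omega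
      simp [I, h, h']

end Pool.Agent.Lib.H67C
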