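import Pool.Agent.Lib.H67C.Profile

/-!
# If every branch has a dead link, the path part contributes only zero eigenvalues
-/

set_option autoImplicit false

open Finset Polynomial Matrix

namespace Pool.Agent.Lib.H67C

/-- block triangular matrix with singleton zero diagonal blocks -/
lemma X_pow_dvd_charpoly {n : Type*} [Fintype n] [DecidableEq n] (A : Matrix n n ℂ) (lev : n → ℕ)
    (htri : ∀ i j, lev j < lev i → A i j = 0) (S : Finset n)
    (hS : ∀ p ∈ S, ∀ v, lev v = lev p → v = p) (hS0 : ∀ p ∈ S, A p p = 0) :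
    (X : ℂ[X]) ^ S.card ∣ A.charpoly := by
  have hbt : BlockTriangular (charmatrix A) lev := by
    intro i j hij
    have hne : i ≠ j := by rintro rfl; exact lt_irrefl _ hij
    rw [charmatrix_apply_ne _ _ _ hne, htri i j hij]; simp
  have hdet := hbt.det
  have hinj : Set.InjOn lev (S : Set n) := fun p _ v hv h => hS v hv p h
  have hprod : ∏ a ∈ S.image lev, ((charmatrix A).toSquareBlock lev a).det = X ^ S.card := by
    rw [Finset.prod_image hinj, ← Finset.prod_const]
    refine Finset.prod_congr rfl fun p hp => ?_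
    have : Subsingleton {a // lev a = lev p} :=
      ⟨fun a b => Subtype.ext ((hS p hp a a.2).trans (hS p hp b b.2).symm)⟩
    rw [Matrix.det_eq_elem_of_subsingleton _ (⟨p, rfl⟩ : {a // lev a = lev p})]
    rw [toSquareBlock_def, Matrix.of_apply, charmatrix_apply_eq, hS0 p hp]
    simp
  unfold Matrix.charpoly
  rw [hdet, ← hprod]
  exact Finset.prod_dvd_prod_of_subset _ _ _ (Finset.image_subset_image (Finset.subset_univ _))

/-- the level of a vertex, `τ β` is the position of a dead link of the branch `β` -/
def lev (M q k : ℕ) (τ : Fin k × Fin k → ℕ) : T M q k → ℕ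
  | Sum.inl (c, i) => q + c.val * k + i.val
  | Sum.inr (β, t, _) => if t.val ≤ τ β then q + M * k + t.val else t.val

lemma lt_mul {M k : ℕ} (c : Fin M) (i : Fin k) : c.val * k + i.val < M * k := by
  have h1 := c.isLt
  have h2 := i.isLt
  have h3 : (c.val + 1) * k ≤ M * k := Nat.mul_le_mul_right k h1
  have h4 : (c.val + 1) * k = c.val * k + k := by ring
  omega

lemma lev_tri (M q k : ℕ) (τ : Fin k × Fin k → ℕ) (hτ : ∀ β, τ β + 1 < q)
    (A : Matrix (T M q k) (T M q k) ℂ) (hA : ∀ a b, W M q k a b = 0 → A a b = 0)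
    (hd : ∀ (β : Fin k × Fin k) (t t' : Fin q) (x y : Fin k), t.val = τ β → t'.val = τ β + 1 →
      x.val = 0 → y.val = 0 → A (Sum.inr (β, t, x)) (Sum.inr (β, t', y)) = 0)
    (a b : T M q k) (h : lev M q k τ b < lev M q k τ a) : A a b = 0 := by
  rcases a with ⟨c, i⟩ | ⟨β, t, x⟩ <;> rcases b with ⟨d, j⟩ | ⟨β', t', y⟩
  · apply hA
    simp only [lev] at h
    simp only [W, I]
    rw [if_neg]
    intro h1
    rw [h1] at h
    have h2 := i.isLt
    have h4 : (c.val + 1) * k = c.val * k + k := by ring
    omega
  · simp only [lev] at h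
    have h1 := lt_mul c i
    by_cases h2 : t'.val ≤ τ β'
    · rw [if_pos h2] at h
      omega
    · apply hA
      have h3 : ¬ (t'.val = 0) := by omega
      simp [W, I, h3]
  · simp only [lev] at h
    have h1 := t.isLt
    have h3 := hτ β
    by_cases h2 : t.val ≤ τ β
    · apply hA
      have h4 : ¬ (t.val + 1 = q) := by omega
      simp [W, I, h4]
    · rw [if_neg h2] at h
      have : d.val * k + j.val ≥ 0 := Nat.zero_le _
      omega
  · simp only [lev] at h
    by_cases hβ : β' = β
    · subst hβ
      by_cases h1 : t' = t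
      · subst h1
        exact absurd h (lt_irrefl _)
      · by_cases h2 : t'.val = t.val + 1
        · by_cases h3 : t.val ≤ τ β'
          · by_cases h4 : t'.val ≤ τ β'
            · rw [if_pos h3, if_pos h4] at h
              omega
            · by_cases h5 : x.val = 0
              · by_cases h6 : y.val = 0
                · exact hd β' t t' x y (by omega) (by omega) h5 h6
                · apply hA
                  simp [W, I, h1, h6]
              · apply hA
                simp [W, I, h1, h5]
          · rw [if_neg h3, if_neg (by omega)] at h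
            omega
        · apply hA
          simp [W, I, h1, h2]
    · apply hA
      simp [W, I, hβ]

lemma div_unique' {M k : ℕ} (c d : Fin M) (i j : Fin k)
    (h : d.val * k + j.val = c.val * k + i.val) : d = c ∧ j = i := by
  have hk : 0 < k := i.pos
  have h1 : (d.val * k + j.val) / k = d.val := by
    rw [mul_comm, Nat.mul_add_div hk, Nat.div_eq_of_lt j.isLt, add_zero]
  have h2 : (c.val * k + i.val) / k = c.val := by
    rw [mul_comm, Nat.mul_add_div hk, Nat.div_eq_of_lt i.isLt, add_zero]
  have h3 : d.val = c.val := by rw [← h1, ← h2, h]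
  refine ⟨Fin.ext h3, Fin.ext ?_⟩
  rw [h3] at h
  omega

/-- the main deterministic fact -/
lemma X_pow_dvd (M q k : ℕ)
    (A : Matrix (T M q k) (T M q k) ℂ) (hA : ∀ a b, W M q k a b = 0 → A a b = 0)
    (hd : ∀ (β : Fin k × Fin k), ∃ s : ℕ, s + 1 < q ∧ ∀ (t t' : Fin q) (x y : Fin k), t.val = s →
      t'.val = s + 1 → x.val = 0 → y.val = 0 → A (Sum.inr (β, t, x)) (Sum.inr (β, t', y)) = 0) :
    (X : ℂ[X]) ^ (M * k) ∣ A.charpoly := by
  choose τ hτ hτd using hd
  have hcard : ((Finset.univ : Finset (Fin M × Fin k)).map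
      (Function.Embedding.inl : _ ↪ T M q k)).card = M * k := by
    rw [Finset.card_map, Finset.card_univ, Fintype.card_prod, Fintype.card_fin, Fintype.card_fin]
  rw [← hcard]
  refine X_pow_dvd_charpoly A (lev M q k τ) (lev_tri M q k τ hτ A hA
    (fun β t t' x y h1 h2 h3 h4 => hτd β t t' x y h1 h2 h3 h4)) _ ?_ ?_
  · intro p hp v hv
    rw [Finset.mem_map] at hp
    obtain ⟨⟨c, i⟩, -, rfl⟩ := hp
    have h1 := lt_mul c i
    rcases v with ⟨d, j⟩ | ⟨β', t', y⟩
    · simp only [lev, Function.Embedding.inl_apply] at hv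
      obtain ⟨h2, h3⟩ := div_unique' c d i j (by omega)
      rw [h2, h3]
      rfl
    · simp only [lev, Function.Embedding.inl_apply] at hv
      have h2 := t'.isLt
      split_ifs at hv <;> omega
  · intro p hp
    rw [Finset.mem_map] at hp
    obtain ⟨⟨c, i⟩, -, rfl⟩ := hp
    apply hA
    simp [W, I]

end Pool.Agent.Lib.H67C
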